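import Pool.Agent.Helper10.Sw.Z.La0
import Pool.Agent.Helper10.Sw.Z.La1
import Pool.Agent.Helper10.Sw.Z.La2
import Pool.Agent.Helper10.Sw.Z.La3
import Pool.Agent.Helper10.Sw.Z.La4
import Pool.Agent.Helper10.Sw.Z.La5
import Pool.Agent.Helper10.Sw.Z.La6
import Pool.Agent.Helper10.Sw.Z.La7
import Pool.Agent.Helper10.Sw.Z.La8
import Pool.Agent.Helper10.Sw.Z.La9
import Pool.Agent.Helper10.Sw.Z.La10
import Pool.Agent.Helper10.Sw.Z.La11
import Pool.Agent.Helper10.Sw.Z.La12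
import Pool.Agent.Helper10.Sw.Z.La13
import Pool.Agent.Helper10.Sw.Z.La14
import Pool.Agent.Helper10.Sw.Z.La15
import Pool.Agent.Helper10.Sw.Z.La16
import Pool.Agent.Helper10.Sw.Z.La17
import Pool.Agent.Helper10.Sw.Z.La18
import Pool.Agent.Helper10.Sw.Z.La19
import Pool.Agent.Helper10.Sw.Z.La20
import Pool.Agent.Helper10.Sw.Z.La21

/-! The reduction to the listed structures with four vertices. -/

set_option autoImplicit false
set_option maxRecDepth 1000000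
set_option linter.all false

namespace Pool.Agent.Helper10.Sw.Z

def TTa : ℕ := 0x10000000000000002000000400000000000000000000000000000000000002012000000000000400000080000000000000000000000000080000000000000400000400000000000000000000000080000000000000000000c000000000000000000000000000000000000000100000000000000000001804000000800000000000000000000000000000000000000000000000000000000000000000000000000000000000000000024000000000000000000020000000000000000000000000000000000000804800000800000000000024020000804000000000000000000020000000000000100000000000000000000800000100000100000000000000000000000000000000000000000000000000000000000000000000000000000000000000000000000000000000040000000000000004000000800000000000000000000000000000000000000000000004000000000000000000000000000000000000000000000000000000000000000000000000000000000000000000000000000000000000000000000000000000020000004000000000000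00000000000000000000000000000000002000000400000000000000000000000000000000000000000000000000000000000000000000000000000000000000000000000000000000180400000000000000000000000000000000000000000000002000000000000080000010000000000000000000000000000000000000000000000000000000000000000000000000000000000000000000000000000000000000000402400000000000080000000000000000000000000080000010000000000000480000080000000000000000000000000000000000000000000000000000000000010000000000000000000000000000000000000100000000000000000000002000000000000000000000000000000000000000000000000000000000000000000000000000000000000000000000000000000000002000000000000080000010000000000000400000000000000000000000000000000000000012000000000000400000080000000000000000000000000080000000000000400000400000000000002000000000000400000080000000000002000000400000000000000000000000000000010080000010000000000000400000080000000000000000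00000000000000000000000000000000000000000000000000000000000000000000000000000200000040000000000001000000200000000000000000000000000000048040008008000000000000200000040000000000001000000200000000000001000000000000000000008000001000001000000000000000000000000000000000000000000000000000000000000000000000000000000000000000000000000000000000000000000000000040000000000000000000000000000000000000000000000000008000000000000000000000000000000000000000000000000200000000000000000001000000000000000000000000000000000000000040000000000000200000200000040000000000000000000000000000000000000000000040240000040000000000000200000000000000000000000000000000000000000000000000000000000000000000001008000000000000000000040000000000000000000000000000000000000200000000000000000001000000000000000000000000000000000000000000040000000000000000000000000000000000000000000000000000000008048000000000000000000240000008000008000001000000000000000001001001001000000000008048001009000001000000000000008000001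

theorem reda : redAll 15335552005808127 TTa = true := by decide +kernel

theorem cova : (nall 11664 fun c => cond (okc TTa c) (or (okc Ta0_0 c) (or (okc Ta0_1 c) (or (okc Ta0_2 c) (or (okc Ta0_3 c) (or (okc Ta0_4 c) (or (okc Ta0_5 c) (or (okc Ta1_0 c) (or (okc Ta1_1 c) (or (okc Ta1_2 c) (or (okc Ta1_3 c) (or (okc Ta1_4 c) (or (okc Ta1_5 c) (or (okc Ta2_0 c) (or (okc Ta2_1 c) (or (okc Ta2_2 c) (or (okc Ta2_3 c) (or (okc Ta2_4 c) (or (okc Ta2_5 c) (or (okc Ta2_6 c) (or (okc Ta3_0 c) (or (okc Ta3_1 c) (or (okc Ta3_2 c) (or (okc Ta3_3 c) (or (okc Ta3_4 c) (or (okc Ta3_5 c) (or (okc Ta4_0 c) (or (okc Ta4_1 c) (or (okc Ta4_2 c) (or (okc Ta4_3 c) (or (okc Ta4_4 c) (or (okc Ta4_5 c) (or (okc Ta5_0 c) (or (okc Ta5_1 c) (or (okc Ta5_2 c) (or (okc Ta5_3 c) (or (okc Ta5_4 c) (or (okc Ta5_5 c) (or (okc Ta6_0 c) (or (okc Ta6_1 c) (or (okc Ta6_2 c) (or (okc Ta6_3 c) (or (okc Ta6_4 c) (or (okc Ta6_5 c) (or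 (okc Ta7_0 c) (or (okc Ta7_1 c) (or (okc Ta7_2 c) (or (okc Ta7_3 c) (or (okc Ta7_4 c) (or (okc Ta7_5 c) (or (okc Ta8_0 c) (or (okc Ta8_1 c) (or (okc Ta8_2 c) (or (okc Ta8_3 c) (or (okc Ta8_4 c) (or (okc Ta8_5 c) (or (okc Ta8_6 c) (or (okc Ta9_0 c) (or (okc Ta9_1 c) (or (okc Ta9_2 c) (or (okc Ta9_3 c) (or (okc Ta9_4 c) (or (okc Ta9_5 c) (or (okc Ta10_0 c) (or (okc Ta10_1 c) (or (okc Ta10_2 c) (or (okc Ta10_3 c) (or (okc Ta10_4 c) (or (okc Ta10_5 c) (or (okc Ta10_6 c) (or (okc Ta11_0 c) (or (okc Ta11_1 c) (or (okc Ta11_2 c) (or (okc Ta11_3 c) (or (okc Ta11_4 c) (or (okc Ta11_5 c) (or (okc Ta12_0 c) (or (okc Ta12_1 c) (or (okc Ta12_2 c) (or (okc Ta12_3 c) (or (okc Ta12_4 c) (or (okc Ta12_5 c) (or (okc Ta13_0 c) (or (okc Ta13_1 c) (or (okc Ta13_2 c) (or (okc Ta13_3 c) (or (okc Ta13_4 c) (or (okc Ta13_5 c) (or (okc Ta14_0 c) (or (okc Ta14_1 c) (or (okc Ta14_2 c) (or (okc Ta14_3 c) (or (okc Ta14_4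 c) (or (okc Ta14_5 c) (or (okc Ta15_0 c) (or (okc Ta15_1 c) (or (okc Ta15_2 c) (or (okc Ta15_3 c) (or (okc Ta15_4 c) (or (okc Ta15_5 c) (or (okc Ta15_6 c) (or (okc Ta16_0 c) (or (okc Ta16_1 c) (or (okc Ta16_2 c) (or (okc Ta16_3 c) (or (okc Ta16_4 c) (or (okc Ta16_5 c) (or (okc Ta16_6 c) (or (okc Ta17_0 c) (or (okc Ta17_1 c) (or (okc Ta17_2 c) (or (okc Ta17_3 c) (or (okc Ta17_4 c) (or (okc Ta17_5 c) (or (okc Ta18_0 c) (or (okc Ta18_1 c) (or (okc Ta18_2 c) (or (okc Ta18_3 c) (or (okc Ta18_4 c) (or (okc Ta18_5 c) (or (okc Ta18_6 c) (or (okc Ta19_0 c) (or (okc Ta19_1 c) (or (okc Ta19_2 c) (or (okc Ta19_3 c) (or (okc Ta19_4 c) (or (okc Ta19_5 c) (or (okc Ta19_6 c) (or (okc Ta20_0 c) (or (okc Ta20_1 c) (or (okc Ta20_2 c) (or (okc Ta20_3 c) (or (okc Ta20_4 c) (or (okc Ta20_5 c) (or (okc Ta21_0 c) (or (okc Ta21_1 c) (or (okc Ta21_2 c) (or (okc Ta21_3 c) (or (okc Ta21_4 c) (or (okc Ta21_5 c) (okc Ta21_6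 c)))))))))))))))))))))))))))))))))))))))))))))))))))))))))))))))))))))))))))))))))))))))))))))))))))))))))))))))))))))))))))))))))))))))))))) true) = true := by decide +kernel

theorem biga : Nat.shiftRight TTa 11664 = 0 := by decide +kernel

theorem chka (c : ℕ) (h : okc TTa c = true) :
    ∃ T', okc T' c = true ∧ chkAll 15335552005808127 40532396646334320 86694292826882047200 q q1 T' = true := by
  have hc : c < 11664 := okc_lt biga h
  have e := cond_true (nall_true cova c hc) h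
  simp only [Bool.or_eq_true] at e
  rcases e with e | e | e | e | e | e | e | e | e | e | e | e | e | e | e | e | e | e | e | e | e | e | e | e | e | e | e | e | e | e | e | e | e | e | e | e | e | e | e | e | e | e | e | e | e | e | e | e | e | e | e | e | e | e | e | e | e | e | e | e | e | e | e | e | e | e | e | e | e | e | e | e | e | e | e | e | e | e | e | e | e | e | e | e | e | e | e | e | e | e | e | e | e | e | e | e | e | e | e | e | e | e | e | e | e | e | e | e | e | e | e | e | e | e | e | e | e | e | e | e | e | e | e | e | e | e | e | e | e | e | e | e | e | e | e | e | e | e | e | e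
  · exact ⟨Ta0_0, e, aa0_0⟩
  · exact ⟨Ta0_1, e, aa0_1⟩
  · exact ⟨Ta0_2, e, aa0_2⟩
  · exact ⟨Ta0_3, e, aa0_3⟩
  · exact ⟨Ta0_4, e, aa0_4⟩
  · exact ⟨Ta0_5, e, aa0_5⟩
  · exact ⟨Ta1_0, e, aa1_0⟩
  · exact ⟨Ta1_1, e, aa1_1⟩
  · exact ⟨Ta1_2, e, aa1_2⟩
  · exact ⟨Ta1_3, e, aa1_3⟩
  · exact ⟨Ta1_4, e, aa1_4⟩
  · exact ⟨Ta1_5, e, aa1_5⟩
  · exact ⟨Ta2_0, e, aa2_0⟩
  · exact ⟨Ta2_1, e, aa2_1⟩
  · exact ⟨Ta2_2, e, aa2_2⟩
  · exact ⟨Ta2_3, e, aa2_3⟩
  · exact ⟨Ta2_4, e, aa2_4⟩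
  · exact ⟨Ta2_5, e, aa2_5⟩
  · exact ⟨Ta2_6, e, aa2_6⟩
  · exact ⟨Ta3_0, e, aa3_0⟩
  · exact ⟨Ta3_1, e, aa3_1⟩
  · exact ⟨Ta3_2, e, aa3_2⟩
  · exact ⟨Ta3_3, e, aa3_3⟩
  · exact ⟨Ta3_4, e, aa3_4⟩
  · exact ⟨Ta3_5, e, aa3_5⟩
  · exact ⟨Ta4_0, e, aa4_0⟩
  · exact ⟨Ta4_1, e, aa4_1⟩
  · exact ⟨Ta4_2, e, aa4_2⟩
  · exact ⟨Ta4_3, e, aa4_3⟩
  · exact ⟨Ta4_4, e, aa4_4⟩
  · exact ⟨Ta4_5, e, aa4_5⟩
  · exact ⟨Ta5_0, e, aa5_0⟩
  · exact ⟨Ta5_1, e, aa5_1⟩
  · exact ⟨Ta5_2, e, aa5_2⟩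
  · exact ⟨Ta5_3, e, aa5_3⟩
  · exact ⟨Ta5_4, e, aa5_4⟩
  · exact ⟨Ta5_5, e, aa5_5⟩
  · exact ⟨Ta6_0, e, aa6_0⟩
  · exact ⟨Ta6_1, e, aa6_1⟩
  · exact ⟨Ta6_2, e, aa6_2⟩
  · exact ⟨Ta6_3, e, aa6_3⟩
  · exact ⟨Ta6_4, e, aa6_4⟩
  · exact ⟨Ta6_5, e, aa6_5⟩
  · exact ⟨Ta7_0, e, aa7_0⟩
  · exact ⟨Ta7_1, e, aa7_1⟩
  · exact ⟨Ta7_2, e, aa7_2⟩
  · exact ⟨Ta7_3, e, aa7_3⟩
  · exact ⟨Ta7_4, e, aa7_4⟩
  · exact ⟨Ta7_5, e, aa7_5⟩
  · exact ⟨Ta8_0, e, aa8_0⟩
  · exact ⟨Ta8_1, e, aa8_1⟩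
  · exact ⟨Ta8_2, e, aa8_2⟩
  · exact ⟨Ta8_3, e, aa8_3⟩
  · exact ⟨Ta8_4, e, aa8_4⟩
  · exact ⟨Ta8_5, e, aa8_5⟩
  · exact ⟨Ta8_6, e, aa8_6⟩
  · exact ⟨Ta9_0, e, aa9_0⟩
  · exact ⟨Ta9_1, e, aa9_1⟩
  · exact ⟨Ta9_2, e, aa9_2⟩
  · exact ⟨Ta9_3, e, aa9_3⟩
  · exact ⟨Ta9_4, e, aa9_4⟩
  · exact ⟨Ta9_5, e, aa9_5⟩
  · exact ⟨Ta10_0, e, aa10_0⟩
  · exact ⟨Ta10_1, e, aa10_1⟩
  · exact ⟨Ta10_2, e, aa10_2⟩
  · exact ⟨Ta10_3, e, aa10_3⟩
  · exact ⟨Ta10_4, e, aa10_4⟩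
  · exact ⟨Ta10_5, e, aa10_5⟩
  · exact ⟨Ta10_6, e, aa10_6⟩
  · exact ⟨Ta11_0, e, aa11_0⟩
  · exact ⟨Ta11_1, e, aa11_1⟩
  · exact ⟨Ta11_2, e, aa11_2⟩
  · exact ⟨Ta11_3, e, aa11_3⟩
  · exact ⟨Ta11_4, e, aa11_4⟩
  · exact ⟨Ta11_5, e, aa11_5⟩
  · exact ⟨Ta12_0, e, aa12_0⟩
  · exact ⟨Ta12_1, e, aa12_1⟩
  · exact ⟨Ta12_2, e, aa12_2⟩
  · exact ⟨Ta12_3, e, aa12_3⟩
  · exact ⟨Ta12_4, e, aa12_4⟩
  · exact ⟨Ta12_5, e, aa12_5⟩
  · exact ⟨Ta13_0, e, aa13_0⟩
  · exact ⟨Ta13_1, e, aa13_1⟩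
  · exact ⟨Ta13_2, e, aa13_2⟩
  · exact ⟨Ta13_3, e, aa13_3⟩
  · exact ⟨Ta13_4, e, aa13_4⟩
  · exact ⟨Ta13_5, e, aa13_5⟩
  · exact ⟨Ta14_0, e, aa14_0⟩
  · exact ⟨Ta14_1, e, aa14_1⟩
  · exact ⟨Ta14_2, e, aa14_2⟩
  · exact ⟨Ta14_3, e, aa14_3⟩
  · exact ⟨Ta14_4, e, aa14_4⟩
  · exact ⟨Ta14_5, e, aa14_5⟩
  · exact ⟨Ta15_0, e, aa15_0⟩
  · exact ⟨Ta15_1, e, aa15_1⟩
  · exact ⟨Ta15_2, e, aa15_2⟩
  · exact ⟨Ta15_3, e, aa15_3⟩
  · exact ⟨Ta15_4, e, aa15_4⟩
  · exact ⟨Ta15_5, e, aa15_5⟩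
  · exact ⟨Ta15_6, e, aa15_6⟩
  · exact ⟨Ta16_0, e, aa16_0⟩
  · exact ⟨Ta16_1, e, aa16_1⟩
  · exact ⟨Ta16_2, e, aa16_2⟩
  · exact ⟨Ta16_3, e, aa16_3⟩
  · exact ⟨Ta16_4, e, aa16_4⟩
  · exact ⟨Ta16_5, e, aa16_5⟩
  · exact ⟨Ta16_6, e, aa16_6⟩
  · exact ⟨Ta17_0, e, aa17_0⟩
  · exact ⟨Ta17_1, e, aa17_1⟩
  · exact ⟨Ta17_2, e, aa17_2⟩
  · exact ⟨Ta17_3, e, aa17_3⟩
  · exact ⟨Ta17_4, e, aa17_4⟩
  · exact ⟨Ta17_5, e, aa17_5⟩
  · exact ⟨Ta18_0, e, aa18_0⟩
  · exact ⟨Ta18_1, e, aa18_1⟩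
  · exact ⟨Ta18_2, e, aa18_2⟩
  · exact ⟨Ta18_3, e, aa18_3⟩
  · exact ⟨Ta18_4, e, aa18_4⟩
  · exact ⟨Ta18_5, e, aa18_5⟩
  · exact ⟨Ta18_6, e, aa18_6⟩
  · exact ⟨Ta19_0, e, aa19_0⟩
  · exact ⟨Ta19_1, e, aa19_1⟩
  · exact ⟨Ta19_2, e, aa19_2⟩
  · exact ⟨Ta19_3, e, aa19_3⟩
  · exact ⟨Ta19_4, e, aa19_4⟩
  · exact ⟨Ta19_5, e, aa19_5⟩
  · exact ⟨Ta19_6, e, aa19_6⟩
  · exact ⟨Ta20_0, e, aa20_0⟩
  · exact ⟨Ta20_1, e, aa20_1⟩
  · exact ⟨Ta20_2, e, aa20_2⟩
  · exact ⟨Ta20_3, e, aa20_3⟩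
  · exact ⟨Ta20_4, e, aa20_4⟩
  · exact ⟨Ta20_5, e, aa20_5⟩
  · exact ⟨Ta21_0, e, aa21_0⟩
  · exact ⟨Ta21_1, e, aa21_1⟩
  · exact ⟨Ta21_2, e, aa21_2⟩
  · exact ⟨Ta21_3, e, aa21_3⟩
  · exact ⟨Ta21_4, e, aa21_4⟩
  · exact ⟨Ta21_5, e, aa21_5⟩
  · exact ⟨Ta21_6, e, aa21_6⟩

end Pool.Agent.Helper10.Sw.Z
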