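import Pool.Agent.Helper10.Sw.Z.Lb0
import Pool.Agent.Helper10.Sw.Z.Lb1
import Pool.Agent.Helper10.Sw.Z.Lb2
import Pool.Agent.Helper10.Sw.Z.Lb3
import Pool.Agent.Helper10.Sw.Z.Lb4
import Pool.Agent.Helper10.Sw.Z.Lb5
import Pool.Agent.Helper10.Sw.Z.Lb6
import Pool.Agent.Helper10.Sw.Z.Lb7
import Pool.Agent.Helper10.Sw.Z.Lb8
import Pool.Agent.Helper10.Sw.Z.Lb9
import Pool.Agent.Helper10.Sw.Z.Lb10
import Pool.Agent.Helper10.Sw.Z.Lb11
import Pool.Agent.Helper10.Sw.Z.Lb12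
import Pool.Agent.Helper10.Sw.Z.Lb13
import Pool.Agent.Helper10.Sw.Z.Lb14
import Pool.Agent.Helper10.Sw.Z.Lb15
import Pool.Agent.Helper10.Sw.Z.Lb16

/-! The reduction to the listed structures with four vertices. -/

set_option autoImplicit false
set_option maxRecDepth 1000000
set_option linter.all false

namespace Pool.Agent.Helper10.Sw.Z

def TTb : ℕ := 0x10000000000000480400010080000000000000000000000000000000000002002000000000090090002012000000000000000000000000000000000000400000000000000000000000000000000000000000000000000000480000000000000000000c00000000000000000000000000000000000000090000000000000000000180000000000000000000000000000000000000002000000000000000000000000000000000000000000000000000000000002400000000000000000002010000002000000000000000000000000000080480480080080000000002402000080400000080000000000000000000000010000010000000000000000000000000000000000000000000000000000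00000000000000000000000000000000000000000000000000000000000000000000000000000000000600000000000000000000000000000000000000000000000000000000000000000000000000000000000000000000000000000000001000000000000000000000000000000000000000000000000000000000000000000000000001009000000000000000000000000000000000000000000000000000000000000000000000000000000000000000000000000000000000000000000000000000000000000000000000000000000000000000000000000000000000018000000000000000000000000000000000000000000000000000000000000000000000000000000000000000000000000000000000000000000000000000000000000000000000000000000000000000000040000000000000000040240000000000008000000000000000000000000000000000000000000000000000000000000000000000000000000000000000000000000000000000000000000000000000000000000000000000000000000050000000000000000000000000000000000000000000000000000000000000000000000000040000000000000000000000000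000000000000000000000001000000000000040000008000000000000000000000000000000000000200200000000000009000001200000000000000000000000000000000000040000000000000201000000000000000000000000000000000000000000000000000000000000000000000000000000000000000000000000009000000000000000000000000000000000000000000000000000000000000200000000000000000001000000000000000000000000000000000000000000200000040000000000001000000200000000000000000000000000000048048008008000000000000200000040000008000001000000200000000001000000000000000000008040000000000000000000000000000000000000000000000000000000000000000000000000000000000000000000000000000000000000000000000000000000000000000000000000000000000000000000000000000000000040000008000000000000000000000000000000000000000000000000000000000000000000000000000000000000000000000000000000000000000000009000000200000000000000000000000000000000000040040000000000201200040240000000000000000000000000000000000000000000000000000000000000000000000000000000000000000001000000000000000000000000000000000000000000000000000000000000200000000000000000001000000000000000000000000000000000000000000040000000000000000000000000000000000000000000000000000000008048000000000000000000240000008000008000001000000000000000001001001001000000000008048001009000001000000000000008000001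

theorem redb : redAll 15727057870626815 TTb = true := by decide +kernel

theorem covb : (nall 11664 fun c => cond (okc TTb c) (or (okc Tb0_0 c) (or (okc Tb0_1 c) (or (okc Tb0_2 c) (or (okc Tb0_3 c) (or (okc Tb0_4 c) (or (okc Tb0_5 c) (or (okc Tb0_6 c) (or (okc Tb1_0 c) (or (okc Tb1_1 c) (or (okc Tb1_2 c) (or (okc Tb1_3 c) (or (okc Tb1_4 c) (or (okc Tb1_5 c) (or (okc Tb1_6 c) (or (okc Tb2_0 c) (or (okc Tb2_1 c) (or (okc Tb2_2 c) (or (okc Tb2_3 c) (or (okc Tb2_4 c) (or (okc Tb2_5 c) (or (okc Tb2_6 c) (or (okc Tb2_7 c) (or (okc Tb3_0 c) (or (okc Tb3_1 c) (or (okc Tb3_2 c) (or (okc Tb3_3 c) (or (okc Tb3_4 c) (or (okc Tb3_5 c) (or (okc Tb3_6 c) (or (okc Tb3_7 c) (or (okc Tb4_0 c) (or (okc Tb4_1 c) (or (okc Tb4_2 c) (or (okc Tb4_3 c) (or (okc Tb4_4 c) (or (okc Tb4_5 c) (or (okc Tb4_6 c) (or (okc Tb4_7 c) (or (okc Tb5_0 c) (or (okc Tb5_1 c) (or (okc Tb5_2 c) (or (okc Tb5_3 c) (or (okc Tb5_4 c)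 (or (okc Tb5_5 c) (or (okc Tb5_6 c) (or (okc Tb5_7 c) (or (okc Tb6_0 c) (or (okc Tb6_1 c) (or (okc Tb6_2 c) (or (okc Tb6_3 c) (or (okc Tb6_4 c) (or (okc Tb6_5 c) (or (okc Tb6_6 c) (or (okc Tb6_7 c) (or (okc Tb7_0 c) (or (okc Tb7_1 c) (or (okc Tb7_2 c) (or (okc Tb7_3 c) (or (okc Tb7_4 c) (or (okc Tb7_5 c) (or (okc Tb7_6 c) (or (okc Tb7_7 c) (or (okc Tb8_0 c) (or (okc Tb8_1 c) (or (okc Tb8_2 c) (or (okc Tb8_3 c) (or (okc Tb8_4 c) (or (okc Tb8_5 c) (or (okc Tb8_6 c) (or (okc Tb8_7 c) (or (okc Tb9_0 c) (or (okc Tb9_1 c) (or (okc Tb9_2 c) (or (okc Tb9_3 c) (or (okc Tb9_4 c) (or (okc Tb9_5 c) (or (okc Tb9_6 c) (or (okc Tb9_7 c) (or (okc Tb10_0 c) (or (okc Tb10_1 c) (or (okc Tb10_2 c) (or (okc Tb10_3 c) (or (okc Tb10_4 c) (or (okc Tb10_5 c) (or (okc Tb10_6 c) (or (okc Tb11_0 c) (or (okc Tb11_1 c) (or (okc Tb11_2 c) (or (okc Tb11_3 c) (or (okc Tb11_4 c) (or (okc Tb11_5 c) (or (okc Tb11_6 c) (or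 (okc Tb11_7 c) (or (okc Tb12_0 c) (or (okc Tb12_1 c) (or (okc Tb12_2 c) (or (okc Tb12_3 c) (or (okc Tb12_4 c) (or (okc Tb12_5 c) (or (okc Tb12_6 c) (or (okc Tb12_7 c) (or (okc Tb13_0 c) (or (okc Tb13_1 c) (or (okc Tb13_2 c) (or (okc Tb13_3 c) (or (okc Tb13_4 c) (or (okc Tb13_5 c) (or (okc Tb13_6 c) (or (okc Tb13_7 c) (or (okc Tb14_0 c) (or (okc Tb14_1 c) (or (okc Tb14_2 c) (or (okc Tb14_3 c) (or (okc Tb14_4 c) (or (okc Tb14_5 c) (or (okc Tb14_6 c) (or (okc Tb14_7 c) (or (okc Tb15_0 c) (or (okc Tb15_1 c) (or (okc Tb15_2 c) (or (okc Tb15_3 c) (or (okc Tb15_4 c) (or (okc Tb15_5 c) (or (okc Tb15_6 c) (or (okc Tb15_7 c) (or (okc Tb16_0 c) (or (okc Tb16_1 c) (or (okc Tb16_2 c) (or (okc Tb16_3 c) (or (okc Tb16_4 c) (or (okc Tb16_5 c) (or (okc Tb16_6 c) (okc Tb16_7 c)))))))))))))))))))))))))))))))))))))))))))))))))))))))))))))))))))))))))))))))))))))))))))))))))))))))))))))))))))))))))))))))))))))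 true) = true := by decide +kernel

theorem bigb : Nat.shiftRight TTb 11664 = 0 := by decide +kernel

theorem chkb (c : ℕ) (h : okc TTb c = true) :
    ∃ T', okc T' c = true ∧ chkAll 15727057870626815 40532396646334320 86694292826882047200 q q1 T' = true := by
  have hc : c < 11664 := okc_lt bigb h
  have e := cond_true (nall_true covb c hc) h
  simp only [Bool.or_eq_true] at e
  rcases e with e | e | e | e | e | e | e | e | e | e | e | e | e | e | e | e | e | e | e | e | e | e | e | e | e | e | e | e | e | e | e | e | e | e | e | e | e | e | e | e | e | e | e | e | e | e | e | e | e | e | e | e | e | e | e | e | e | e | e | e | e | e | e | e | e | e | e | e | e | e | e | e | e | e | e | e | e | e | e | e | e | e | e | e | e | e | e | e | e | e | e | e | e | e | e | e | e | e | e | e | e | e | e | e | e | e | e | e | e | e | e | e | e | e | e | e | e | e | e | e | e | e | e | e | e | e |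 e | e | e | e | e | e | e
  · exact ⟨Tb0_0, e, ab0_0⟩
  · exact ⟨Tb0_1, e, ab0_1⟩
  · exact ⟨Tb0_2, e, ab0_2⟩
  · exact ⟨Tb0_3, e, ab0_3⟩
  · exact ⟨Tb0_4, e, ab0_4⟩
  · exact ⟨Tb0_5, e, ab0_5⟩
  · exact ⟨Tb0_6, e, ab0_6⟩
  · exact ⟨Tb1_0, e, ab1_0⟩
  · exact ⟨Tb1_1, e, ab1_1⟩
  · exact ⟨Tb1_2, e, ab1_2⟩
  · exact ⟨Tb1_3, e, ab1_3⟩
  · exact ⟨Tb1_4, e, ab1_4⟩
  · exact ⟨Tb1_5, e, ab1_5⟩
  · exact ⟨Tb1_6, e, ab1_6⟩
  · exact ⟨Tb2_0, e, ab2_0⟩
  · exact ⟨Tb2_1, e, ab2_1⟩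
  · exact ⟨Tb2_2, e, ab2_2⟩
  · exact ⟨Tb2_3, e, ab2_3⟩
  · exact ⟨Tb2_4, e, ab2_4⟩
  · exact ⟨Tb2_5, e, ab2_5⟩
  · exact ⟨Tb2_6, e, ab2_6⟩
  · exact ⟨Tb2_7, e, ab2_7⟩
  · exact ⟨Tb3_0, e, ab3_0⟩
  · exact ⟨Tb3_1, e, ab3_1⟩
  · exact ⟨Tb3_2, e, ab3_2⟩
  · exact ⟨Tb3_3, e, ab3_3⟩
  · exact ⟨Tb3_4, e, ab3_4⟩
  · exact ⟨Tb3_5, e, ab3_5⟩
  · exact ⟨Tb3_6, e, ab3_6⟩
  · exact ⟨Tb3_7, e, ab3_7⟩
  · exact ⟨Tb4_0, e, ab4_0⟩
  · exact ⟨Tb4_1, e, ab4_1⟩
  · exact ⟨Tb4_2, e, ab4_2⟩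
  · exact ⟨Tb4_3, e, ab4_3⟩
  · exact ⟨Tb4_4, e, ab4_4⟩
  · exact ⟨Tb4_5, e, ab4_5⟩
  · exact ⟨Tb4_6, e, ab4_6⟩
  · exact ⟨Tb4_7, e, ab4_7⟩
  · exact ⟨Tb5_0, e, ab5_0⟩
  · exact ⟨Tb5_1, e, ab5_1⟩
  · exact ⟨Tb5_2, e, ab5_2⟩
  · exact ⟨Tb5_3, e, ab5_3⟩
  · exact ⟨Tb5_4, e, ab5_4⟩
  · exact ⟨Tb5_5, e, ab5_5⟩
  · exact ⟨Tb5_6, e, ab5_6⟩
  · exact ⟨Tb5_7, e, ab5_7⟩
  · exact ⟨Tb6_0, e, ab6_0⟩
  · exact ⟨Tb6_1, e, ab6_1⟩
  · exact ⟨Tb6_2, e, ab6_2⟩
  · exact ⟨Tb6_3, e, ab6_3⟩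
  · exact ⟨Tb6_4, e, ab6_4⟩
  · exact ⟨Tb6_5, e, ab6_5⟩
  · exact ⟨Tb6_6, e, ab6_6⟩
  · exact ⟨Tb6_7, e, ab6_7⟩
  · exact ⟨Tb7_0, e, ab7_0⟩
  · exact ⟨Tb7_1, e, ab7_1⟩
  · exact ⟨Tb7_2, e, ab7_2⟩
  · exact ⟨Tb7_3, e, ab7_3⟩
  · exact ⟨Tb7_4, e, ab7_4⟩
  · exact ⟨Tb7_5, e, ab7_5⟩
  · exact ⟨Tb7_6, e, ab7_6⟩
  · exact ⟨Tb7_7, e, ab7_7⟩
  · exact ⟨Tb8_0, e, ab8_0⟩
  · exact ⟨Tb8_1, e, ab8_1⟩
  · exact ⟨Tb8_2, e, ab8_2⟩
  · exact ⟨Tb8_3, e, ab8_3⟩
  · exact ⟨Tb8_4, e, ab8_4⟩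
  · exact ⟨Tb8_5, e, ab8_5⟩
  · exact ⟨Tb8_6, e, ab8_6⟩
  · exact ⟨Tb8_7, e, ab8_7⟩
  · exact ⟨Tb9_0, e, ab9_0⟩
  · exact ⟨Tb9_1, e, ab9_1⟩
  · exact ⟨Tb9_2, e, ab9_2⟩
  · exact ⟨Tb9_3, e, ab9_3⟩
  · exact ⟨Tb9_4, e, ab9_4⟩
  · exact ⟨Tb9_5, e, ab9_5⟩
  · exact ⟨Tb9_6, e, ab9_6⟩
  · exact ⟨Tb9_7, e, ab9_7⟩
  · exact ⟨Tb10_0, e, ab10_0⟩
  · exact ⟨Tb10_1, e, ab10_1⟩
  · exact ⟨Tb10_2, e, ab10_2⟩
  · exact ⟨Tb10_3, e, ab10_3⟩
  · exact ⟨Tb10_4, e, ab10_4⟩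
  · exact ⟨Tb10_5, e, ab10_5⟩
  · exact ⟨Tb10_6, e, ab10_6⟩
  · exact ⟨Tb11_0, e, ab11_0⟩
  · exact ⟨Tb11_1, e, ab11_1⟩
  · exact ⟨Tb11_2, e, ab11_2⟩
  · exact ⟨Tb11_3, e, ab11_3⟩
  · exact ⟨Tb11_4, e, ab11_4⟩
  · exact ⟨Tb11_5, e, ab11_5⟩
  · exact ⟨Tb11_6, e, ab11_6⟩
  · exact ⟨Tb11_7, e, ab11_7⟩
  · exact ⟨Tb12_0, e, ab12_0⟩
  · exact ⟨Tb12_1, e, ab12_1⟩
  · exact ⟨Tb12_2, e, ab12_2⟩
  · exact ⟨Tb12_3, e, ab12_3⟩
  · exact ⟨Tb12_4, e, ab12_4⟩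
  · exact ⟨Tb12_5, e, ab12_5⟩
  · exact ⟨Tb12_6, e, ab12_6⟩
  · exact ⟨Tb12_7, e, ab12_7⟩
  · exact ⟨Tb13_0, e, ab13_0⟩
  · exact ⟨Tb13_1, e, ab13_1⟩
  · exact ⟨Tb13_2, e, ab13_2⟩
  · exact ⟨Tb13_3, e, ab13_3⟩
  · exact ⟨Tb13_4, e, ab13_4⟩
  · exact ⟨Tb13_5, e, ab13_5⟩
  · exact ⟨Tb13_6, e, ab13_6⟩
  · exact ⟨Tb13_7, e, ab13_7⟩
  · exact ⟨Tb14_0, e, ab14_0⟩
  · exact ⟨Tb14_1, e, ab14_1⟩
  · exact ⟨Tb14_2, e, ab14_2⟩
  · exact ⟨Tb14_3, e, ab14_3⟩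
  · exact ⟨Tb14_4, e, ab14_4⟩
  · exact ⟨Tb14_5, e, ab14_5⟩
  · exact ⟨Tb14_6, e, ab14_6⟩
  · exact ⟨Tb14_7, e, ab14_7⟩
  · exact ⟨Tb15_0, e, ab15_0⟩
  · exact ⟨Tb15_1, e, ab15_1⟩
  · exact ⟨Tb15_2, e, ab15_2⟩
  · exact ⟨Tb15_3, e, ab15_3⟩
  · exact ⟨Tb15_4, e, ab15_4⟩
  · exact ⟨Tb15_5, e, ab15_5⟩
  · exact ⟨Tb15_6, e, ab15_6⟩
  · exact ⟨Tb15_7, e, ab15_7⟩
  · exact ⟨Tb16_0, e, ab16_0⟩
  · exact ⟨Tb16_1, e, ab16_1⟩
  · exact ⟨Tb16_2, e, ab16_2⟩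
  · exact ⟨Tb16_3, e, ab16_3⟩
  · exact ⟨Tb16_4, e, ab16_4⟩
  · exact ⟨Tb16_5, e, ab16_5⟩
  · exact ⟨Tb16_6, e, ab16_6⟩
  · exact ⟨Tb16_7, e, ab16_7⟩

end Pool.Agent.Helper10.Sw.Z
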