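import Pool.Agent.Helper10.Sw.Z.Lc0
import Pool.Agent.Helper10.Sw.Z.Lc1
import Pool.Agent.Helper10.Sw.Z.Lc2
import Pool.Agent.Helper10.Sw.Z.Lc3
import Pool.Agent.Helper10.Sw.Z.Lc4
import Pool.Agent.Helper10.Sw.Z.Lc5
import Pool.Agent.Helper10.Sw.Z.Lc6
import Pool.Agent.Helper10.Sw.Z.Lc7
import Pool.Agent.Helper10.Sw.Z.Lc8
import Pool.Agent.Helper10.Sw.Z.Lc9
import Pool.Agent.Helper10.Sw.Z.Lc10
import Pool.Agent.Helper10.Sw.Z.Lc11

/-! The reduction to the listed structures with four vertices. -/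

set_option autoImplicit false
set_option maxRecDepth 1000000
set_option linter.all false

namespace Pool.Agent.Helper10.Sw.Z

def TTc : ℕ := 0x10000000000000480000010000000000000000000000000000000000000002000000000000090010002002000000000000000000000000000000000000400000000000000002000000400000000000000000000000000000480000000000000000000c0200000040000000000000000000000000000009008000001000000000018040000008000000000000000000000000000000200000000000000000000008000000000000000000000000000000000000240000000000000000000200000000000000000000000000000000000008048008008000000000000240000008000000000000000000000000000000001001001000000000000000008000001000000000000000000000000000000000000000000000000000000000000000000000000000000000000000000000000000000000000000601000000000000040000008000000000000000000000000008000000000000200000040000000000000000000000000000000000001000000000000000000000000000000000000000000000000000000000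00000000000000000100100000000000000000000000000000000000000000000000000000000000000000000000000000000000000000000000000000000000000000000000000000000000000000000000000000000000000000800000000000000001804000000000000000000000000000000000000000000000020000000000000800000100000000000000000000000000000000000000000000000000000000000000000000000000000000000000000000000000000000000000004004000000000000000000000000000000000000000000000000000000000000000000000000000000000000000000000000000000000020000000000000800000100000000000000000000000000000000000005004000000000000100000020000004000000000000000000000000000000000000000000004000000000000000000000000000000000000000000000000000000000000000000000000000000000000000000000000000000000020000000000000000100000020000000000000000000000000000000000004000000000000020000000000000000000000000000020000000000004000000800000000000020000004000000000000000000000000000000900800000100000000000004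0000008000000000000000000000000000000200000000000000000001000000000000000000000000000000000000000000000000000000000000000000000000000000000000000000000000000048008008000000000000000000000000000000000000000000000000000001000000000000000000008000000000000000000000000000000000000000000000000000000000000000000000000000000000000000000000000000000000000000000000000001000000000000040000000000000000000000000000000000000000000040000008000000000000000000000000000000000000000000000000000000000000000000000000000000000000000000000000000000000000000000001000000200000000000000000000000000000000000040000000000000200000040000000000000000000000000000000000000000000000000000000000000000000000000000000000000000000001008000000000000000000040000000000000000000000000000000000000200000000000000000001000000000000000000000000000000000000000000040000000000000000000000000000000000000000000000000000000008008000000000000000000040000008000000000000000000000000000001000001000000000000008000001000000000000000000000000000001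

theorem redc : redAll 15762321430912433 TTc = true := by decide +kernel

theorem covc : (nall 11664 fun c => cond (okc TTc c) (or (okc Tc0_0 c) (or (okc Tc0_1 c) (or (okc Tc0_2 c) (or (okc Tc0_3 c) (or (okc Tc0_4 c) (or (okc Tc0_5 c) (or (okc Tc0_6 c) (or (okc Tc0_7 c) (or (okc Tc0_8 c) (or (okc Tc1_0 c) (or (okc Tc1_1 c) (or (okc Tc1_2 c) (or (okc Tc1_3 c) (or (okc Tc1_4 c) (or (okc Tc1_5 c) (or (okc Tc1_6 c) (or (okc Tc1_7 c) (or (okc Tc2_0 c) (or (okc Tc2_1 c) (or (okc Tc2_2 c) (or (okc Tc2_3 c) (or (okc Tc2_4 c) (or (okc Tc2_5 c) (or (okc Tc2_6 c) (or (okc Tc2_7 c) (or (okc Tc3_0 c) (or (okc Tc3_1 c) (or (okc Tc3_2 c) (or (okc Tc3_3 c) (or (okc Tc3_4 c) (or (okc Tc3_5 c) (or (okc Tc3_6 c) (or (okc Tc3_7 c) (or (okc Tc4_0 c) (or (okc Tc4_1 c) (or (okc Tc4_2 c) (or (okc Tc4_3 c) (or (okc Tc4_4 c) (or (okc Tc4_5 c) (or (okc Tc4_6 c) (or (okc Tc4_7 c) (or (okc Tc5_0 c) (or (okc Tc5_1 c) (or (okc Tc5_2 c) (or (okc Tc5_3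 c) (or (okc Tc5_4 c) (or (okc Tc5_5 c) (or (okc Tc5_6 c) (or (okc Tc5_7 c) (or (okc Tc5_8 c) (or (okc Tc6_0 c) (or (okc Tc6_1 c) (or (okc Tc6_2 c) (or (okc Tc6_3 c) (or (okc Tc6_4 c) (or (okc Tc6_5 c) (or (okc Tc6_6 c) (or (okc Tc6_7 c) (or (okc Tc7_0 c) (or (okc Tc7_1 c) (or (okc Tc7_2 c) (or (okc Tc7_3 c) (or (okc Tc7_4 c) (or (okc Tc7_5 c) (or (okc Tc7_6 c) (or (okc Tc7_7 c) (or (okc Tc8_0 c) (or (okc Tc8_1 c) (or (okc Tc8_2 c) (or (okc Tc8_3 c) (or (okc Tc8_4 c) (or (okc Tc8_5 c) (or (okc Tc8_6 c) (or (okc Tc8_7 c) (or (okc Tc9_0 c) (or (okc Tc9_1 c) (or (okc Tc9_2 c) (or (okc Tc9_3 c) (or (okc Tc9_4 c) (or (okc Tc9_5 c) (or (okc Tc9_6 c) (or (okc Tc9_7 c) (or (okc Tc9_8 c) (or (okc Tc10_0 c) (or (okc Tc10_1 c) (or (okc Tc10_2 c) (or (okc Tc10_3 c) (or (okc Tc10_4 c) (or (okc Tc10_5 c) (or (okc Tc10_6 c) (or (okc Tc10_7 c) (or (okc Tc10_8 c) (or (okc Tc11_0 c) (or (okc Tc11_1 c) (or (okc Tc11_2 c) (or (okc Tc11_3 c)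 (or (okc Tc11_4 c) (or (okc Tc11_5 c) (or (okc Tc11_6 c) (okc Tc11_7 c)))))))))))))))))))))))))))))))))))))))))))))))))))))))))))))))))))))))))))))))))))))))))))))))))))) true) = true := by decide +kernel

theorem bigc : Nat.shiftRight TTc 11664 = 0 := by decide +kernel

theorem chkc (c : ℕ) (h : okc TTc c = true) :
    ∃ T', okc T' c = true ∧ chkAll 15762321430912433 40532396646334320 86694292826882047200 q q1 T' = true := by
  have hc : c < 11664 := okc_lt bigc h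
  have e := cond_true (nall_true covc c hc) h
  simp only [Bool.or_eq_true] at e
  rcases e with e | e | e | e | e | e | e | e | e | e | e | e | e | e | e | e | e | e | e | e | e | e | e | e | e | e | e | e | e | e | e | e | e | e | e | e | e | e | e | e | e | e | e | e | e | e | e | e | e | e | e | e | e | e | e | e | e | e | e | e | e | e | e | e | e | e | e | e | e | e | e | e | e | e | e | e | e | e | e | e | e | e | e | e | e | e | e | e | e | e | e | e | e | e | e | e | e | e | e | e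
  · exact ⟨Tc0_0, e, ac0_0⟩
  · exact ⟨Tc0_1, e, ac0_1⟩
  · exact ⟨Tc0_2, e, ac0_2⟩
  · exact ⟨Tc0_3, e, ac0_3⟩
  · exact ⟨Tc0_4, e, ac0_4⟩
  · exact ⟨Tc0_5, e, ac0_5⟩
  · exact ⟨Tc0_6, e, ac0_6⟩
  · exact ⟨Tc0_7, e, ac0_7⟩
  · exact ⟨Tc0_8, e, ac0_8⟩
  · exact ⟨Tc1_0, e, ac1_0⟩
  · exact ⟨Tc1_1, e, ac1_1⟩
  · exact ⟨Tc1_2, e, ac1_2⟩
  · exact ⟨Tc1_3, e, ac1_3⟩
  · exact ⟨Tc1_4, e, ac1_4⟩
  · exact ⟨Tc1_5, e, ac1_5⟩
  · exact ⟨Tc1_6, e, ac1_6⟩
  · exact ⟨Tc1_7, e, ac1_7⟩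
  · exact ⟨Tc2_0, e, ac2_0⟩
  · exact ⟨Tc2_1, e, ac2_1⟩
  · exact ⟨Tc2_2, e, ac2_2⟩
  · exact ⟨Tc2_3, e, ac2_3⟩
  · exact ⟨Tc2_4, e, ac2_4⟩
  · exact ⟨Tc2_5, e, ac2_5⟩
  · exact ⟨Tc2_6, e, ac2_6⟩
  · exact ⟨Tc2_7, e, ac2_7⟩
  · exact ⟨Tc3_0, e, ac3_0⟩
  · exact ⟨Tc3_1, e, ac3_1⟩
  · exact ⟨Tc3_2, e, ac3_2⟩
  · exact ⟨Tc3_3, e, ac3_3⟩
  · exact ⟨Tc3_4, e, ac3_4⟩
  · exact ⟨Tc3_5, e, ac3_5⟩
  · exact ⟨Tc3_6, e, ac3_6⟩
  · exact ⟨Tc3_7, e, ac3_7⟩
  · exact ⟨Tc4_0, e, ac4_0⟩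
  · exact ⟨Tc4_1, e, ac4_1⟩
  · exact ⟨Tc4_2, e, ac4_2⟩
  · exact ⟨Tc4_3, e, ac4_3⟩
  · exact ⟨Tc4_4, e, ac4_4⟩
  · exact ⟨Tc4_5, e, ac4_5⟩
  · exact ⟨Tc4_6, e, ac4_6⟩
  · exact ⟨Tc4_7, e, ac4_7⟩
  · exact ⟨Tc5_0, e, ac5_0⟩
  · exact ⟨Tc5_1, e, ac5_1⟩
  · exact ⟨Tc5_2, e, ac5_2⟩
  · exact ⟨Tc5_3, e, ac5_3⟩
  · exact ⟨Tc5_4, e, ac5_4⟩
  · exact ⟨Tc5_5, e, ac5_5⟩
  · exact ⟨Tc5_6, e, ac5_6⟩
  · exact ⟨Tc5_7, e, ac5_7⟩
  · exact ⟨Tc5_8, e, ac5_8⟩
  · exact ⟨Tc6_0, e, ac6_0⟩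
  · exact ⟨Tc6_1, e, ac6_1⟩
  · exact ⟨Tc6_2, e, ac6_2⟩
  · exact ⟨Tc6_3, e, ac6_3⟩
  · exact ⟨Tc6_4, e, ac6_4⟩
  · exact ⟨Tc6_5, e, ac6_5⟩
  · exact ⟨Tc6_6, e, ac6_6⟩
  · exact ⟨Tc6_7, e, ac6_7⟩
  · exact ⟨Tc7_0, e, ac7_0⟩
  · exact ⟨Tc7_1, e, ac7_1⟩
  · exact ⟨Tc7_2, e, ac7_2⟩
  · exact ⟨Tc7_3, e, ac7_3⟩
  · exact ⟨Tc7_4, e, ac7_4⟩
  · exact ⟨Tc7_5, e, ac7_5⟩
  · exact ⟨Tc7_6, e, ac7_6⟩
  · exact ⟨Tc7_7, e, ac7_7⟩
  · exact ⟨Tc8_0, e, ac8_0⟩
  · exact ⟨Tc8_1, e, ac8_1⟩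
  · exact ⟨Tc8_2, e, ac8_2⟩
  · exact ⟨Tc8_3, e, ac8_3⟩
  · exact ⟨Tc8_4, e, ac8_4⟩
  · exact ⟨Tc8_5, e, ac8_5⟩
  · exact ⟨Tc8_6, e, ac8_6⟩
  · exact ⟨Tc8_7, e, ac8_7⟩
  · exact ⟨Tc9_0, e, ac9_0⟩
  · exact ⟨Tc9_1, e, ac9_1⟩
  · exact ⟨Tc9_2, e, ac9_2⟩
  · exact ⟨Tc9_3, e, ac9_3⟩
  · exact ⟨Tc9_4, e, ac9_4⟩
  · exact ⟨Tc9_5, e, ac9_5⟩
  · exact ⟨Tc9_6, e, ac9_6⟩
  · exact ⟨Tc9_7, e, ac9_7⟩
  · exact ⟨Tc9_8, e, ac9_8⟩
  · exact ⟨Tc10_0, e, ac10_0⟩
  · exact ⟨Tc10_1, e, ac10_1⟩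
  · exact ⟨Tc10_2, e, ac10_2⟩
  · exact ⟨Tc10_3, e, ac10_3⟩
  · exact ⟨Tc10_4, e, ac10_4⟩
  · exact ⟨Tc10_5, e, ac10_5⟩
  · exact ⟨Tc10_6, e, ac10_6⟩
  · exact ⟨Tc10_7, e, ac10_7⟩
  · exact ⟨Tc10_8, e, ac10_8⟩
  · exact ⟨Tc11_0, e, ac11_0⟩
  · exact ⟨Tc11_1, e, ac11_1⟩
  · exact ⟨Tc11_2, e, ac11_2⟩
  · exact ⟨Tc11_3, e, ac11_3⟩
  · exact ⟨Tc11_4, e, ac11_4⟩
  · exact ⟨Tc11_5, e, ac11_5⟩
  · exact ⟨Tc11_6, e, ac11_6⟩
  · exact ⟨Tc11_7, e, ac11_7⟩

end Pool.Agent.Helper10.Sw.Z
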