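import Pool.Agent.Helper10.Sw.Rob2
import Pool.Agent.Helper10.Sw.Z.Ra
import Pool.Agent.Helper10.Sw.Z.Rb
import Pool.Agent.Helper10.Sw.Z.Rc
import Pool.Agent.Helper10.Sw.Z.G0
import Pool.Agent.Helper10.Sw.Z.G1
import Pool.Agent.Helper10.Sw.Z.G2
import Pool.Agent.Helper10.Sw.Z.G3
import Pool.Agent.Helper10.Sw.Z.G4
import Pool.Agent.Helper10.Sw.Z.G5
import Pool.Agent.Helper10.Sw.Z.G6
import Pool.Agent.Helper10.Sw.Z.G7
import Pool.Agent.Helper10.Sw.Z.G8
import Pool.Agent.Helper10.Sw.Z.G9
import Pool.Agent.Helper10.Sw.Z.G10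
import Pool.Agent.Helper10.Sw.Z.G11

/-! The bound for the local class. -/

set_option autoImplicit false
set_option maxRecDepth 100000
set_option linter.all false

namespace Pool.Agent.Helper10.Sw.Z

theorem qpsd (n : ℕ) : Psd 216 1152921504606846976 (qq n) := by
  rcases n with _ | n
  · exact Psd.const 216 1152921504606846976
  rcases n with _ | n
  · exact p0
  rcases n with _ | n
  · exact p1
  rcases n with _ | n
  · exact p2
  rcases n with _ | n
  · exact p3
  rcases n with _ | n
  · exact p4
  rcases n with _ | n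
  · exact p5
  rcases n with _ | n
  · exact p6
  rcases n with _ | n
  · exact p7
  rcases n with _ | n
  · exact p8
  rcases n with _ | n
  · exact p9
  exact p10

theorem qle (n i j : ℕ) : qq n i j ≤ 18446744073709551616 := by
  rcases n with _ | n
  · exact (by decide : 1152921504606846976 ≤ 18446744073709551616)
  rcases n with _ | n
  · exact lk_le x0 142 t0 i j
  rcases n with _ | n
  · exact lk_le x1 117 t1 i j
  rcases n with _ | n
  · exact lk_le x2 102 t2 i j
  rcases n with _ | n
  · exact lk_le x3 107 t3 i j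
  rcases n with _ | n
  · exact lk_le x4 91 t4 i j
  rcases n with _ | n
  · exact lk_le x5 109 t5 i j
  rcases n with _ | n
  · exact lk_le x6 81 t6 i j
  rcases n with _ | n
  · exact lk_le x7 121 t7 i j
  rcases n with _ | n
  · exact lk_le x8 89 t8 i j
  rcases n with _ | n
  · exact lk_le x9 100 t9 i j
  exact lk_le x10 82 t10 i j

theorem flc : flipc x11 = true := by decide +kernel

open Finset in
theorem main {n : ℕ} (R : Fin n → Fin n → Prop) (H E : Finset (Finset (Fin n)))
    (h3 : ∀ e ∈ H, e.card = 3) (hE : ∀ e ∈ E, e.card = 3) (hO : ∀ x y, R x y → ¬ R y x)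
    (hK : ∀ S : Finset (Fin n), S.card = 4 → ∃ T ⊆ S, T.card = 3 ∧ T ∉ H)
    (hx : ∀ x : Fin 5 → Fin n, (∀ i j k : Fin 5, ({x i, x j, x k} : Finset (Fin n)) ∉ E) →
      (∀ i j k : Fin 5, okc OKa (ty (rl R (x i) (x j)) (rl R (x i) (x k)) (rl R (x j) (x k))
        (hd H (x i) (x j) (x k))) = true) ∨
      (∀ i j k : Fin 5, okc OKb (ty (rl R (x i) (x j)) (rl R (x i) (x k)) (rl R (x j) (x k))
        (hd H (x i) (x j) (x k))) = true) ∨
      (∀ i j k : Fin 5, okc OKd (ty (rl R (x i) (x j)) (rl R (x i) (x k)) (rl R (x j) (x k))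
        (hd H (x i) (x j) (x k))) = true)) :
    54 * H.card ≤ 5 * n ^ 3 + 2000000 * E.card := by
  have f := flag_rob2 (r := rl R) (h := hd H) (K := 40532396646334320) (B := 86694292826882047200)
    (O3 := 1152921504606846976) (O1 := 1152921504606846976) (M := 18446744073709551616) (q := q) (q1 := q1) (rl_pr hO)
    (fun a b c => by have := hd_lt (H := H) a b c; omega) hd_s1 hd_s2 (hd_k4 hK) E hE
    (fun x hxE => by
      rcases hx x hxE with h | h | h
      · exact tuple_bound (rl_pr hO) (fun a b c => by have := hd_lt (H := H) a b c; omega) hd_s1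
          hd_s2 (hd_k4 hK) (fun τ _ => qpsd _) p11 (flip_of flc) reda chka x h
      · exact tuple_bound (rl_pr hO) (fun a b c => by have := hd_lt (H := H) a b c; omega) hd_s1
          hd_s2 (hd_k4 hK) (fun τ _ => qpsd _) p11 (flip_of flc) redb chkb x h
      · exact tuple_bound (rl_pr hO) (fun a b c => by have := hd_lt (H := H) a b c; omega) hd_s1
          hd_s2 (hd_k4 hK) (fun τ _ => qpsd _) p11 (flip_of flc) redc chkc x h)
    (fun τ i j => qle _ i j) (fun i j => lk_le _ _ _ i j) (fun τ _ => qpsd _) p11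
  exact top_rob H h3 4503599627370480 1152921504606846976 1152921504606846976 18446744073709551616 2000000 E.card (by decide) (by decide) f

end Pool.Agent.Helper10.Sw.Z
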