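import Pool.Agent.Helper10.Sw.Z.D0
import Pool.Agent.Helper10.Sw.Z.D1
import Pool.Agent.Helper10.Sw.Z.D2
import Pool.Agent.Helper10.Sw.Z.D3
import Pool.Agent.Helper10.Sw.Z.D4
import Pool.Agent.Helper10.Sw.Z.D5
import Pool.Agent.Helper10.Sw.Z.D6
import Pool.Agent.Helper10.Sw.Z.D7
import Pool.Agent.Helper10.Sw.Z.D8
import Pool.Agent.Helper10.Sw.Z.D9
import Pool.Agent.Helper10.Sw.Z.D10
import Pool.Agent.Helper10.Sw.Z.D11

/-! The values of the certificate. -/

set_option autoImplicit false
set_option maxRecDepth 1000000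
set_option linter.all false

namespace Pool.Agent.Helper10.Sw.Z

def tt : ℕ := 0xb70950000000030000080000000a6004000000002001

noncomputable def qq (n i j : ℕ) : ℕ := sel n 1152921504606846976 fun m => sel m (lk x0 142 t0 i j) fun m => sel m (lk x1 117 t1 i j) fun m => sel m (lk x2 102 t2 i j) fun m => sel m (lk x3 107 t3 i j) fun m => sel m (lk x4 91 t4 i j) fun m => sel m (lk x5 109 t5 i j) fun m => sel m (lk x6 81 t6 i j) fun m => sel m (lk x7 121 t7 i j) fun m => sel m (lk x8 89 t8 i j) fun m => sel m (lk x9 100 t9 i j) fun m => lk x10 82 t10 i j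

noncomputable def q (τ i j : ℕ) : ℕ := qq (tid tt τ) i j

noncomputable def q1 (i j : ℕ) : ℕ := lk x11 24 t11 i j

end Pool.Agent.Helper10.Sw.Z
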